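import Pool.Agent.H9.HN2

namespace Pool.Agent.Results.MP_a4cf75_mp.NotMono
open MeasureTheory Pool.Agent.H9.HN

/-- For `d = d_E = t = 2` and Haar measure, the squared norm increases from `k = 4` to `k = 5`. -/
theorem result [MeasurableSpace (UG 2 2)] [BorelSpace (UG 2 2)] :
    ∃ μ : Measure (UG 2 2), IsProbabilityMeasure μ ∧ μ.IsMulLeftInvariant ∧
      Nrm μ 2 4 < Nrm μ 2 5 := by
  obtain ⟨μ, h1, h2⟩ := haar_ex
  exact ⟨μ, h1, h2, main μ⟩

end Pool.Agent.Results.MP_a4cf75_mp.NotMono
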